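import Pool.Agent.D0H34.SG.Sig
import Pool.Agent.D0H41.SG.Stm

/-! Project SG, module REAL: polynomials near a given one have `r₁` real roots. -/

set_option autoImplicit false

open Polynomial

namespace Pool.Agent.D0H34.SG

open Pool.Agent.D0H41.SF Pool.Agent.D0H41.SG

/-- the model polynomial -/
noncomputable def model (r₁ r₂ : ℕ) : ℝ[X] :=
  (∏ j ∈ Finset.range r₁, (X - C (2 * (j : ℝ) - ((r₁ : ℝ) - 1)))) *
    ∏ j ∈ Finset.range r₂, (X ^ 2 + C (((j : ℝ) + 1) ^ 2))

lemma model_monic (r₁ r₂ : ℕ) : (model r₁ r₂).Monic := by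
  unfold model
  refine Monic.mul (monic_prod_of_monic _ _ fun j _ => monic_X_sub_C _) (monic_prod_of_monic _ _ fun j _ => ?_)
  exact monic_X_pow_add_C _ two_ne_zero

lemma model_natDegree (r₁ r₂ : ℕ) : (model r₁ r₂).natDegree = r₁ + 2 * r₂ := by
  unfold model
  rw [Monic.natDegree_mul (monic_prod_of_monic _ _ fun j _ => monic_X_sub_C _)
    (monic_prod_of_monic _ _ fun j _ => monic_X_pow_add_C _ two_ne_zero),
    natDegree_prod_of_monic _ _ fun j _ => monic_X_sub_C _,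
    natDegree_prod_of_monic _ _ fun j _ => monic_X_pow_add_C _ two_ne_zero]
  have h1 : ∀ j ∈ Finset.range r₁, (X - C (2 * (j : ℝ) - ((r₁ : ℝ) - 1)) : ℝ[X]).natDegree = 1 :=
    fun j _ => natDegree_X_sub_C _
  have h2 : ∀ j ∈ Finset.range r₂, (X ^ 2 + C (((j : ℝ) + 1) ^ 2) : ℝ[X]).natDegree = 2 :=
    fun j _ => natDegree_X_pow_add_C
  rw [Finset.sum_congr rfl h1, Finset.sum_congr rfl h2, Finset.sum_const, Finset.sum_const, Finset.card_range,
    Finset.card_range, smul_eq_mul, smul_eq_mul, mul_one, mul_comm r₂ 2]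

lemma model_next (r₁ r₂ : ℕ) : (model r₁ r₂).nextCoeff = 0 := by
  unfold model
  rw [Monic.nextCoeff_mul (monic_prod_of_monic _ _ fun j _ => monic_X_sub_C _)
    (monic_prod_of_monic _ _ fun j _ => monic_X_pow_add_C _ two_ne_zero),
    Monic.nextCoeff_prod _ _ fun j _ => monic_X_sub_C _,
    Monic.nextCoeff_prod _ _ fun j _ => monic_X_pow_add_C _ two_ne_zero]
  have h1 : ∀ j ∈ Finset.range r₂, (X ^ 2 + C (((j : ℝ) + 1) ^ 2) : ℝ[X]).nextCoeff = 0 := by
    intro j _
    rw [nextCoeff, natDegree_X_pow_add_C, if_neg two_ne_zero, coeff_add, coeff_X_pow, coeff_C]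
    simp
  rw [Finset.sum_eq_zero h1, add_zero]
  simp only [nextCoeff_X_sub_C]
  rw [Finset.sum_neg_distrib, neg_eq_zero, Finset.sum_sub_distrib, ← Finset.mul_sum, Finset.sum_const,
    Finset.card_range, nsmul_eq_mul]
  have h2 : ∀ r : ℕ, 2 * ∑ j ∈ Finset.range r, (j : ℝ) = r * ((r : ℝ) - 1) := by
    intro r
    induction r with
    | zero => simp
    | succ r ih =>
      rw [Finset.sum_range_succ, mul_add, ih]
      push_cast
      ring
  rw [h2]
  ring

/-- the complex roots -/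
noncomputable def zz (r₁ r₂ : ℕ) : Fin r₁ ⊕ (Fin r₂ × Bool) → ℂ
  | Sum.inl j => ((2 * ((j : ℕ) : ℝ) - ((r₁ : ℝ) - 1) : ℝ) : ℂ)
  | Sum.inr (j, b) => ((if b then (((j : ℕ) : ℝ) + 1) else -(((j : ℕ) : ℝ) + 1) : ℝ) : ℂ) * Complex.I

lemma zz_inl (r₁ r₂ : ℕ) (j : Fin r₁) :
    zz r₁ r₂ (Sum.inl j) = ((2 * ((j : ℕ) : ℝ) - ((r₁ : ℝ) - 1) : ℝ) : ℂ) := rfl

lemma zz_inr (r₁ r₂ : ℕ) (j : Fin r₂) (b : Bool) : zz r₁ r₂ (Sum.inr (j, b)) =
    ((if b then (((j : ℕ) : ℝ) + 1) else -(((j : ℕ) : ℝ) + 1) : ℝ) : ℂ) * Complex.I := rfl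

lemma im_inl (r₁ r₂ : ℕ) (j : Fin r₁) : (zz r₁ r₂ (Sum.inl j)).im = 0 := by
  rw [zz_inl, Complex.ofReal_im]

lemma im_inr (r₁ r₂ : ℕ) (j : Fin r₂) (b : Bool) :
    (zz r₁ r₂ (Sum.inr (j, b))).im = if b then (((j : ℕ) : ℝ) + 1) else -(((j : ℕ) : ℝ) + 1) := by
  rw [zz_inr, Complex.mul_im, Complex.ofReal_re, Complex.ofReal_im, Complex.I_im, Complex.I_re]
  ring

lemma im_inr_ne (r₁ r₂ : ℕ) (j : Fin r₂) (b : Bool) : (zz r₁ r₂ (Sum.inr (j, b))).im ≠ 0 := by
  rw [im_inr]
  have : (0 : ℝ) ≤ ((j : ℕ) : ℝ) := Nat.cast_nonneg _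
  split_ifs
  · positivity
  · have : -(((j : ℕ) : ℝ) + 1) < 0 := by linarith
    exact this.ne

lemma zz_inj (r₁ r₂ : ℕ) : Function.Injective (zz r₁ r₂) := by
  rintro (j | ⟨j, b⟩) (k | ⟨k, c⟩) h
  · rw [zz_inl, zz_inl, Complex.ofReal_inj] at h
    have h1 : ((j : ℕ) : ℝ) = ((k : ℕ) : ℝ) := by linarith
    have h2 : (j : ℕ) = (k : ℕ) := by exact_mod_cast h1
    rw [Fin.ext h2]
  · exact absurd (by rw [← h]; exact im_inl _ _ _) (im_inr_ne r₁ r₂ k c)
  · exact absurd (by rw [h]; exact im_inl _ _ _) (im_inr_ne r₁ r₂ j b)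
  · have h1 := congrArg Complex.im h
    rw [im_inr, im_inr] at h1
    have hj : (0 : ℝ) ≤ ((j : ℕ) : ℝ) := Nat.cast_nonneg _
    have hk : (0 : ℝ) ≤ ((k : ℕ) : ℝ) := Nat.cast_nonneg _
    cases b <;> cases c
    · simp only [Bool.false_eq_true, if_false] at h1
      have h2 : ((j : ℕ) : ℝ) = ((k : ℕ) : ℝ) := by linarith
      have h3 : (j : ℕ) = (k : ℕ) := by exact_mod_cast h2
      rw [Fin.ext h3]
    · simp only [Bool.false_eq_true, if_false, if_true] at h1
      exfalso; linarith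
    · simp only [Bool.false_eq_true, if_false, if_true] at h1
      exfalso; linarith
    · simp only [if_true] at h1
      have h2 : ((j : ℕ) : ℝ) = ((k : ℕ) : ℝ) := by linarith
      have h3 : (j : ℕ) = (k : ℕ) := by exact_mod_cast h2
      rw [Fin.ext h3]

lemma zz_root (r₁ r₂ : ℕ) (t : Fin r₁ ⊕ (Fin r₂ × Bool)) : (cx (model r₁ r₂)).eval (zz r₁ r₂ t) = 0 := by
  have e : cx (model r₁ r₂) =
      (∏ j ∈ Finset.range r₁, (X - C (((2 * (j : ℝ) - ((r₁ : ℝ) - 1) : ℝ) : ℂ)))) *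
      ∏ j ∈ Finset.range r₂, (X ^ 2 + C (((((j : ℝ) + 1) ^ 2 : ℝ) : ℂ))) := by
    unfold cx model
    rw [Polynomial.map_mul, Polynomial.map_prod, Polynomial.map_prod]
    congr 1
    · refine Finset.prod_congr rfl fun j _ => ?_
      rw [Polynomial.map_sub, map_X, map_C]
      rfl
    · refine Finset.prod_congr rfl fun j _ => ?_
      rw [Polynomial.map_add, Polynomial.map_pow, map_X, map_C]
      rfl
  rw [e, eval_mul, eval_prod, eval_prod]
  rcases t with (j | ⟨j, b⟩)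
  · rw [Finset.prod_eq_zero (Finset.mem_range.2 j.2), zero_mul]
    rw [eval_sub, eval_X, eval_C, zz_inl, sub_self]
  · apply mul_eq_zero_of_right
    apply Finset.prod_eq_zero (Finset.mem_range.2 j.2)
    rw [eval_add, eval_pow, eval_X, eval_C, zz_inr, mul_pow, Complex.I_sq]
    cases b
    · simp
      ring
    · simp

lemma model_card (r₁ r₂ : ℕ) : (cx (model r₁ r₂)).roots.toFinset = Finset.univ.image (zz r₁ r₂) := by
  classical
  have hm : (cx (model r₁ r₂)).Monic := (model_monic r₁ r₂).map _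
  symm
  apply Finset.eq_of_subset_of_card_le
  · intro z hz
    obtain ⟨t, _, rfl⟩ := Finset.mem_image.1 hz
    rw [Multiset.mem_toFinset, mem_roots hm.ne_zero]
    exact zz_root r₁ r₂ t
  · rw [Finset.card_image_of_injective _ (zz_inj r₁ r₂), Finset.card_univ]
    calc (cx (model r₁ r₂)).roots.toFinset.card ≤ Multiset.card (cx (model r₁ r₂)).roots :=
          Multiset.toFinset_card_le _
      _ ≤ (cx (model r₁ r₂)).natDegree := card_roots' _
      _ = r₁ + 2 * r₂ := by rw [(model_monic r₁ r₂).natDegree_map, model_natDegree]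
      _ = Fintype.card (Fin r₁ ⊕ (Fin r₂ × Bool)) := by
        rw [Fintype.card_sum, Fintype.card_prod, Fintype.card_fin, Fintype.card_fin, Fintype.card_bool,
          mul_comm]

lemma model_real (r₁ r₂ : ℕ) : (model r₁ r₂).roots.toFinset.card = r₁ := by
  classical
  rw [card_real (model_monic r₁ r₂).ne_zero, model_card]
  have e : (Finset.univ.image (zz r₁ r₂)).filter (fun z => z.im = 0) =
      Finset.univ.image (fun j : Fin r₁ => zz r₁ r₂ (Sum.inl j)) := by
    ext z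
    rw [Finset.mem_filter, Finset.mem_image, Finset.mem_image]
    constructor
    · rintro ⟨⟨t, _, rfl⟩, h2⟩
      rcases t with (j | ⟨j, b⟩)
      · exact ⟨j, Finset.mem_univ _, rfl⟩
      · exact absurd h2 (im_inr_ne r₁ r₂ j b)
    · rintro ⟨j, _, rfl⟩
      exact ⟨⟨Sum.inl j, Finset.mem_univ _, rfl⟩, im_inl r₁ r₂ j⟩
  rw [e, Finset.card_image_of_injective, Finset.card_univ, Fintype.card_fin]
  intro j k h
  exact Sum.inl_injective (zz_inj r₁ r₂ h)

/-- `X^n + ∑ c_i X^i` -/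
noncomputable def pr (n : ℕ) (c : Fin (n - 1) → ℝ) : ℝ[X] := X ^ n + ∑ i : Fin (n - 1), C (c i) * X ^ (i : ℕ)

lemma deg_tailR (n : ℕ) (hn : 2 ≤ n) (c : Fin (n - 1) → ℝ) :
    (∑ i : Fin (n - 1), C (c i) * X ^ (i : ℕ) : ℝ[X]).degree < (n : ℕ) := by
  refine (degree_sum_le _ _).trans_lt ?_
  rw [Finset.sup_lt_iff (by exact_mod_cast WithBot.bot_lt_coe n)]
  intro i _
  refine (degree_C_mul_X_pow_le _ _).trans_lt ?_
  have := i.2
  exact_mod_cast (by omega : (i : ℕ) < n)

lemma pr_monic (n : ℕ) (hn : 2 ≤ n) (c : Fin (n - 1) → ℝ) : (pr n c).Monic :=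
  monic_X_pow_add (deg_tailR n hn c)

lemma pr_natDegree (n : ℕ) (hn : 2 ≤ n) (c : Fin (n - 1) → ℝ) : (pr n c).natDegree = n := by
  unfold pr
  rw [natDegree_add_eq_left_of_degree_lt, natDegree_X_pow]
  rw [degree_X_pow]
  exact deg_tailR n hn c

lemma pr_coeff (n : ℕ) (c : Fin (n - 1) → ℝ) (j : ℕ) :
    (pr n c).coeff j = (if j = n then 1 else 0) + ∑ i : Fin (n - 1), if j = (i : ℕ) then c i else 0 := by
  unfold pr
  rw [coeff_add, coeff_X_pow, finsetSum_coeff]
  congr 1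
  refine Finset.sum_congr rfl fun i _ => ?_
  rw [coeff_C_mul_X_pow]

lemma pr_coeff_lt (n : ℕ) (c : Fin (n - 1) → ℝ) (i : Fin (n - 1)) : (pr n c).coeff (i : ℕ) = c i := by
  have hi := i.2
  rw [pr_coeff, if_neg (by omega), zero_add, Finset.sum_eq_single i]
  · rw [if_pos rfl]
  · intro j _ hj
    rw [if_neg]
    intro h
    exact hj (Fin.ext h.symm)
  · intro h
    exact absurd (Finset.mem_univ i) h

lemma pr_coeff_pred (n : ℕ) (hn : 2 ≤ n) (c : Fin (n - 1) → ℝ) : (pr n c).coeff (n - 1) = 0 := by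
  rw [pr_coeff, if_neg (by omega), zero_add]
  refine Finset.sum_eq_zero fun i _ => ?_
  have := i.2
  rw [if_neg (by omega)]

theorem t_REAL : S_REAL := by
  intro n r₁ hn hr hev Cc hC
  obtain ⟨r₂, hr₂⟩ := hev
  have hnr : n = r₁ + 2 * r₂ := by omega
  set F := model r₁ r₂ with hF
  have hFd : F.natDegree = n := by rw [hF, model_natDegree, hnr]
  have hFp : F.coeff (n - 1) = 0 := by
    have h1 := model_next r₁ r₂
    rw [← hF, nextCoeff, hFd, if_neg (by omega)] at h1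
    exact h1
  have hcard : (cx F).roots.toFinset.card = n := by
    rw [hF, model_card, Finset.card_image_of_injective _ (zz_inj r₁ r₂), Finset.card_univ, Fintype.card_sum,
      Fintype.card_prod, Fintype.card_fin, Fintype.card_fin, Fintype.card_bool, hnr]
    ring
  obtain ⟨δ, hδ, hst⟩ := stab n (by omega) F (model_monic r₁ r₂) hFd hcard
  obtain ⟨K₀, hK₀⟩ := exists_nat_ge (max ((Cc + 1) / δ) 1)
  have hK1 : (1 : ℝ) ≤ K₀ := (le_max_right _ _).trans hK₀
  have hK2 : (Cc + 1) / K₀ ≤ δ := by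
    rw [div_le_iff₀ (by linarith)]
    have := (le_max_left _ _).trans hK₀
    rw [div_le_iff₀ hδ] at this
    linarith
  obtain ⟨B, hB⟩ : ∃ B : ℝ, B = ∑ i : Fin (n - 1), |F.coeff (i : ℕ)| := ⟨_, rfl⟩
  have hB0 : 0 ≤ B := by rw [hB]; exact Finset.sum_nonneg fun _ _ => abs_nonneg _
  have hBi : ∀ i : Fin (n - 1), |F.coeff (i : ℕ)| ≤ B := by
    intro i
    rw [hB]
    exact Finset.single_le_sum (f := fun i : Fin (n - 1) => |F.coeff (i : ℕ)|) (fun _ _ => abs_nonneg _)
      (Finset.mem_univ i)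
  refine ⟨(B + 1) * (K₀ : ℝ) ^ n, by positivity, ?_⟩
  intro V hV
  have hV1 : (1 : ℝ) ≤ V := by exact_mod_cast hV
  set T : ℝ := K₀ * (V : ℝ) ^ 2 with hT
  have hT0 : 0 < T := by positivity
  have hTp : ∀ i : Fin (n - 1), T ^ (n - (i : ℕ)) = (K₀ : ℝ) ^ (n - (i : ℕ)) * (V : ℝ) ^ (2 * (n - (i : ℕ))) := by
    intro i
    rw [hT, mul_pow, ← pow_mul]
  have hVp : ∀ i : Fin (n - 1), (1 : ℝ) ≤ (V : ℝ) ^ (2 * (n - (i : ℕ))) := fun i => one_le_pow₀ hV1
  refine ⟨fun i => ⌊F.coeff (i : ℕ) * T ^ (n - (i : ℕ))⌋, ?_, ?_⟩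
  · intro i
    have h1 : |((⌊F.coeff (i : ℕ) * T ^ (n - (i : ℕ))⌋ : ℤ) : ℝ)| ≤ |F.coeff (i : ℕ) * T ^ (n - (i : ℕ))| + 1 := by
      have h2 := Int.floor_le (F.coeff (i : ℕ) * T ^ (n - (i : ℕ)))
      have h3 := Int.lt_floor_add_one (F.coeff (i : ℕ) * T ^ (n - (i : ℕ)))
      have h4 := le_abs_self (F.coeff (i : ℕ) * T ^ (n - (i : ℕ)))
      have h5 := neg_abs_le (F.coeff (i : ℕ) * T ^ (n - (i : ℕ)))
      rw [abs_le]
      constructor <;> linarith
    refine h1.trans ?_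
    rw [abs_mul, abs_of_pos (by positivity : 0 < T ^ (n - (i : ℕ))), hTp]
    have h6 : (K₀ : ℝ) ^ (n - (i : ℕ)) ≤ (K₀ : ℝ) ^ n := pow_le_pow_right₀ hK1 (Nat.sub_le _ _)
    have h7 : (1 : ℝ) ≤ (K₀ : ℝ) ^ n := one_le_pow₀ hK1
    have h8 := hVp i
    have h9 : |F.coeff (i : ℕ)| * ((K₀ : ℝ) ^ (n - (i : ℕ)) * (V : ℝ) ^ (2 * (n - (i : ℕ)))) ≤
        B * ((K₀ : ℝ) ^ n * (V : ℝ) ^ (2 * (n - (i : ℕ)))) := by
      apply mul_le_mul (hBi i) _ (by positivity) hB0
      exact mul_le_mul_of_nonneg_right h6 (by positivity)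
    have h10 : (1 : ℝ) ≤ (K₀ : ℝ) ^ n * (V : ℝ) ^ (2 * (n - (i : ℕ))) := by
      nlinarith
    nlinarith
  · intro a ha
    set c : Fin (n - 1) → ℝ := fun i => (a i : ℝ) / T ^ (n - (i : ℕ)) with hc
    have hcoef : ∀ j, |(pr n c).coeff j - F.coeff j| ≤ δ := by
      intro j
      rcases lt_trichotomy j n with hj | hj | hj
      · by_cases hj2 : j = n - 1
        · rw [hj2, pr_coeff_pred n (by omega), hFp, sub_zero, abs_zero]
          exact hδ.le
        · obtain ⟨i, rfl⟩ : ∃ i : Fin (n - 1), j = (i : ℕ) := ⟨⟨j, by omega⟩, rfl⟩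
          rw [pr_coeff_lt, hc]
          have h1 := ha i
          have hTi : 0 < T ^ (n - (i : ℕ)) := by positivity
          have h2 : |F.coeff (i : ℕ) * T ^ (n - (i : ℕ)) -
              ((⌊F.coeff (i : ℕ) * T ^ (n - (i : ℕ))⌋ : ℤ) : ℝ)| ≤ 1 := by
            have h2 := Int.floor_le (F.coeff (i : ℕ) * T ^ (n - (i : ℕ)))
            have h3 := Int.lt_floor_add_one (F.coeff (i : ℕ) * T ^ (n - (i : ℕ)))
            rw [abs_le]
            constructor <;> linarith
          have h3 : (a i : ℝ) / T ^ (n - (i : ℕ)) - F.coeff (i : ℕ) =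
              ((a i : ℝ) - F.coeff (i : ℕ) * T ^ (n - (i : ℕ))) / T ^ (n - (i : ℕ)) := by
            field_simp
          show |(a i : ℝ) / T ^ (n - (i : ℕ)) - F.coeff (i : ℕ)| ≤ δ
          rw [h3, abs_div, abs_of_pos hTi, div_le_iff₀ hTi]
          push_cast at h1
          have h4 : |(a i : ℝ) - F.coeff (i : ℕ) * T ^ (n - (i : ℕ))| ≤
              (Cc + 1) * (V : ℝ) ^ (2 * (n - (i : ℕ))) := by
            have h5 : (a i : ℝ) - F.coeff (i : ℕ) * T ^ (n - (i : ℕ)) =
              ((a i : ℝ) - ((⌊F.coeff (i : ℕ) * T ^ (n - (i : ℕ))⌋ : ℤ) : ℝ)) -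
              (F.coeff (i : ℕ) * T ^ (n - (i : ℕ)) - ((⌊F.coeff (i : ℕ) * T ^ (n - (i : ℕ))⌋ : ℤ) : ℝ)) := by
              ring
            rw [h5]
            refine (abs_sub _ _).trans ?_
            have := hVp i
            linarith
          refine h4.trans ?_
          rw [hTp, ← mul_assoc]
          apply mul_le_mul_of_nonneg_right _ (by positivity)
          have h6 : (K₀ : ℝ) ≤ (K₀ : ℝ) ^ (n - (i : ℕ)) := by
            have := i.2
            exact le_self_pow₀ hK1 (by omega)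
          have h7 : Cc + 1 ≤ δ * K₀ := by
            rw [div_le_iff₀ (by linarith)] at hK2
            exact hK2
          nlinarith
      · rw [hj]
        have h1 : (pr n c).coeff n = 1 := by
          have := pr_monic n (by omega) c
          rw [Monic, leadingCoeff, pr_natDegree n (by omega)] at this
          exact this
        have h2 : F.coeff n = 1 := by
          have := model_monic r₁ r₂
          rw [← hF, Monic, leadingCoeff, hFd] at this
          exact this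
        rw [h1, h2, sub_self, abs_zero]
        exact hδ.le
      · rw [coeff_eq_zero_of_natDegree_lt (by rw [pr_natDegree n (by omega)]; exact hj),
          coeff_eq_zero_of_natDegree_lt (by rw [hFd]; exact hj), sub_self, abs_zero]
        exact hδ.le
    have hfin := hst (pr n c) (pr_monic n (by omega) c) (pr_natDegree n (by omega) c) hcoef
    rw [hF, model_real] at hfin
    rw [← hfin]
    have e : {x : ℝ | aeval x (pol n a) = 0} = (fun y => T * y) '' ((pr n c).roots.toFinset : Set ℝ) := by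
      have key : ∀ y : ℝ, aeval (T * y) (pol n a) = T ^ n * (pr n c).eval y := by
        intro y
        unfold pol pr
        rw [map_add, map_pow, aeval_X, map_sum, eval_add, eval_pow, eval_X, eval_finsetSum, mul_add,
          mul_pow, Finset.mul_sum]
        congr 1
        refine Finset.sum_congr rfl fun i _ => ?_
        rw [map_mul, map_pow, aeval_X, aeval_C, eval_mul, eval_C, eval_pow, eval_X, hc, mul_pow]
        have hi := i.2
        have h1 : T ^ n = T ^ (n - (i : ℕ)) * T ^ (i : ℕ) := by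
          rw [← pow_add]
          congr 1
          omega
        have h2 : T ^ (n - (i : ℕ)) ≠ 0 := (pow_pos hT0 _).ne'
        rw [h1]
        simp only [algebraMap_int_eq, eq_intCast]
        field_simp
      ext x
      constructor
      · intro hx
        refine ⟨x / T, ?_, mul_div_cancel₀ _ hT0.ne'⟩
        rw [Finset.mem_coe, Multiset.mem_toFinset, mem_roots (pr_monic n (by omega) c).ne_zero, IsRoot.def]
        have h1 := key (x / T)
        rw [mul_div_cancel₀ _ hT0.ne'] at h1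
        have hx' : aeval x (pol n a) = 0 := hx
        rw [hx'] at h1
        exact (mul_eq_zero.1 h1.symm).resolve_left (pow_pos hT0 _).ne'
      · rintro ⟨y, hy, rfl⟩
        rw [Finset.mem_coe, Multiset.mem_toFinset, mem_roots (pr_monic n (by omega) c).ne_zero, IsRoot.def] at hy
        show aeval (T * y) (pol n a) = 0
        rw [key, hy, mul_zero]
    rw [e, Set.ncard_image_of_injective _ (mul_right_injective₀ hT0.ne'), Set.ncard_coe_finset]

end Pool.Agent.D0H34.SG
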