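import Mathlib

/-! The number of real roots is locally constant; a polynomial without term of degree `n - 1` and with a given
number of real roots. -/

set_option autoImplicit false

open Polynomial

namespace Pool.Agent.D0H34.SG

/-- complexification -/
noncomputable abbrev cx (f : ℝ[X]) : ℂ[X] := f.map (algebraMap ℝ ℂ)

lemma root_conj {f : ℝ[X]} {z : ℂ} (h : (cx f).eval z = 0) : (cx f).eval (starRingEnd ℂ z) = 0 := by
  have h1 : (cx f).eval (starRingEnd ℂ z) = starRingEnd ℂ ((cx f).eval z) := by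
    rw [cx, eval_map, eval_map, hom_eval₂]
    congr 1
    ext x
    simp
  rw [h1, h, map_zero]

lemma card_real {f : ℝ[X]} (hf : f ≠ 0) :
    f.roots.toFinset.card = ((cx f).roots.toFinset.filter (fun z => z.im = 0)).card := by
  classical
  have hc : cx f ≠ 0 := (Polynomial.map_ne_zero_iff (algebraMap ℝ ℂ).injective).2 hf
  symm
  have e : (cx f).roots.toFinset.filter (fun z => z.im = 0) = f.roots.toFinset.image (fun x : ℝ => (x : ℂ)) := by
    ext z
    rw [Finset.mem_filter, Multiset.mem_toFinset, mem_roots hc, Finset.mem_image]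
    constructor
    · rintro ⟨h1, h2⟩
      refine ⟨z.re, ?_, ?_⟩
      · rw [Multiset.mem_toFinset, mem_roots hf]
        have h3 : ((z.re : ℝ) : ℂ) = z := by
          apply Complex.ext <;> simp [h2]
        rw [← h3] at h1
        have h4 : (cx f).eval ((z.re : ℝ) : ℂ) = ((f.eval z.re : ℝ) : ℂ) := by
          rw [cx, eval_map]
          exact eval₂_at_apply (algebraMap ℝ ℂ) z.re
        rw [IsRoot.def, h4] at h1
        exact_mod_cast h1
      · apply Complex.ext <;> simp [h2]
    · rintro ⟨x, h1, rfl⟩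
      rw [Multiset.mem_toFinset, mem_roots hf] at h1
      refine ⟨?_, Complex.ofReal_im x⟩
      have h4 : (cx f).eval (x : ℂ) = ((f.eval x : ℝ) : ℂ) := by
        rw [cx, eval_map]
        exact eval₂_at_apply (algebraMap ℝ ℂ) x
      rw [IsRoot.def, h4, h1.eq_zero, Complex.ofReal_zero]
  rw [e, Finset.card_image_of_injective _ Complex.ofReal_injective]

/-- **The number of real roots is locally constant** at a polynomial with distinct complex roots. -/
theorem stab (n : ℕ) (hn : 1 ≤ n) (f : ℝ[X]) (hf : f.Monic) (hd : f.natDegree = n)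
    (hs : (cx f).roots.toFinset.card = n) :
    ∃ δ : ℝ, 0 < δ ∧ ∀ g : ℝ[X], g.Monic → g.natDegree = n → (∀ i, |g.coeff i - f.coeff i| ≤ δ) →
      g.roots.toFinset.card = f.roots.toFinset.card := by
  classical
  set S := (cx f).roots.toFinset with hS
  have hSmem : ∀ z, z ∈ S ↔ (cx f).eval z = 0 := by
    intro z
    rw [hS, Multiset.mem_toFinset, mem_roots (hf.map _).ne_zero, IsRoot.def]
  -- separation
  obtain ⟨η, hη, hsep⟩ : ∃ η : ℝ, 0 < η ∧ ∀ a ∈ S, ∀ b ∈ S, a ≠ b → 2 * η ≤ ‖a - b‖ := by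
    set P := (S ×ˢ S).filter (fun p => p.1 ≠ p.2) with hP
    by_cases hne : P.Nonempty
    · obtain ⟨p, hp, hmin⟩ := Finset.exists_min_image P (fun p => ‖p.1 - p.2‖) hne
      have hp' := (Finset.mem_filter.1 hp).2
      have : 0 < ‖p.1 - p.2‖ := norm_pos_iff.2 (sub_ne_zero.2 hp')
      refine ⟨‖p.1 - p.2‖ / 2, by positivity, ?_⟩
      intro a ha b hb hab
      have := hmin (a, b) (Finset.mem_filter.2 ⟨Finset.mem_product.2 ⟨ha, hb⟩, hab⟩)
      simp only at this
      linarith
    · refine ⟨1, one_pos, ?_⟩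
      intro a ha b hb hab
      exfalso
      exact hne ⟨(a, b), Finset.mem_filter.2 ⟨Finset.mem_product.2 ⟨ha, hb⟩, hab⟩⟩
  -- the bound
  obtain ⟨B, hB1, hB⟩ : ∃ B : ℝ, 1 ≤ B ∧ ∀ a ∈ S, max ‖a‖ 1 ≤ B := by
    refine ⟨1 + ∑ a ∈ S, ‖a‖, ?_, ?_⟩
    · have : 0 ≤ ∑ a ∈ S, ‖a‖ := Finset.sum_nonneg fun _ _ => norm_nonneg _
      linarith
    · intro a ha
      have h1 : ‖a‖ ≤ ∑ a ∈ S, ‖a‖ := Finset.single_le_sum (f := fun a => ‖a‖) (fun _ _ => norm_nonneg _) ha
      have h2 : 0 ≤ ‖a‖ := norm_nonneg a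
      exact max_le (by linarith) (by linarith)
  have hn0 : (0 : ℝ) < n := by exact_mod_cast hn
  obtain ⟨ε, hε, hεb⟩ : ∃ ε : ℝ, 0 < ε ∧ (((n : ℝ) + 1) * ε) ^ ((n : ℝ)⁻¹) * B ≤ η := by
    refine ⟨(η / B) ^ (n : ℝ) / (n + 1), by positivity, ?_⟩
    have h1 : ((n : ℝ) + 1) * ((η / B) ^ (n : ℝ) / (n + 1)) = (η / B) ^ (n : ℝ) := by
      field_simp
    rw [h1, ← Real.rpow_mul (by positivity), mul_inv_cancel₀ hn0.ne', Real.rpow_one,
      div_mul_cancel₀ _ (by positivity)]
  refine ⟨ε / 2, by positivity, ?_⟩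
  intro g hg hgd hc
  have hgc : (cx g).Monic := hg.map _
  have hclose : ∀ a ∈ S, ∃ b, (cx g).eval b = 0 ∧ ‖a - b‖ < η := by
    intro a ha
    obtain ⟨b, hb, hab⟩ := exists_roots_norm_sub_lt_of_norm_coeff_sub_lt (K := ℂ) (f := cx f) (g := cx g)
      hε ((hSmem a).1 ha) (hf.map _) hgc (by rw [hg.natDegree_map, hf.natDegree_map, hd, hgd]) (by
        intro i
        rw [coeff_map, coeff_map, ← map_sub]
        have h1 : ‖(algebraMap ℝ ℂ) (g.coeff i - f.coeff i)‖ = |g.coeff i - f.coeff i| := by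
          rw [Complex.coe_algebraMap, Complex.norm_real, Real.norm_eq_abs]
        rw [h1]
        have := hc i
        linarith) (IsAlgClosed.splits _)
    refine ⟨b, (mem_roots hgc.ne_zero).1 hb, lt_of_lt_of_le hab ?_⟩
    rw [hf.natDegree_map, hd]
    refine le_trans ?_ hεb
    exact mul_le_mul_of_nonneg_left (hB a ha) (by positivity)
  choose! β hβ1 hβ2 using hclose
  have hinj : Set.InjOn β (S : Set ℂ) := by
    intro a ha a' ha' h
    by_contra hne
    have h1 := hsep a ha a' ha' hne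
    have h2 := hβ2 a ha
    have h3 := hβ2 a' ha'
    have h4 : ‖a - a'‖ ≤ ‖a - β a‖ + ‖a' - β a'‖ := by
      have : a - a' = (a - β a) - (a' - β a') := by rw [h]; ring
      rw [this]
      exact norm_sub_le _ _
    linarith
  set R := (cx g).roots.toFinset with hR
  have hRmem : ∀ z, z ∈ R ↔ (cx g).eval z = 0 := by
    intro z
    rw [hR, Multiset.mem_toFinset, mem_roots hgc.ne_zero, IsRoot.def]
  have himg : S.image β = R := by
    apply Finset.eq_of_subset_of_card_le
    · intro z hz
      obtain ⟨a, ha, rfl⟩ := Finset.mem_image.1 hz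
      exact (hRmem _).2 (hβ1 a ha)
    · rw [Finset.card_image_of_injOn hinj, hs]
      calc R.card ≤ Multiset.card (cx g).roots := Multiset.toFinset_card_le _
        _ ≤ (cx g).natDegree := card_roots' _
        _ = n := by rw [hg.natDegree_map, hgd]
  have hreal : ∀ a ∈ S, (β a).im = 0 ↔ a.im = 0 := by
    intro a ha
    have hconj : ∀ w : ℂ, starRingEnd ℂ w = w ↔ w.im = 0 := by
      intro w
      exact Complex.conj_eq_iff_im
    constructor
    · intro h
      rw [← hconj]
      by_contra hne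
      have h1 : starRingEnd ℂ a ∈ S := (hSmem _).2 (root_conj ((hSmem a).1 ha))
      have h2 := hsep _ h1 a ha hne
      have h3 := hβ2 a ha
      have h4 : ‖starRingEnd ℂ a - β a‖ = ‖a - β a‖ := by
        rw [← (hconj _).2 h, ← map_sub, RCLike.norm_conj, (hconj _).2 h]
      have h5 : ‖starRingEnd ℂ a - a‖ ≤ ‖starRingEnd ℂ a - β a‖ + ‖a - β a‖ := by
        have : starRingEnd ℂ a - a = (starRingEnd ℂ a - β a) - (a - β a) := by ring
        rw [this]
        exact norm_sub_le _ _
      linarith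
    · intro h
      rw [← hconj]
      have h1 : starRingEnd ℂ (β a) ∈ R := (hRmem _).2 (root_conj (hβ1 a ha))
      rw [← himg] at h1
      obtain ⟨a', ha', h2⟩ := Finset.mem_image.1 h1
      have h3 : ‖a - starRingEnd ℂ (β a)‖ = ‖a - β a‖ := by
        rw [← (hconj a).2 h, ← map_sub, RCLike.norm_conj, (hconj a).2 h]
      have h4 : a = a' := by
        by_contra hne
        have h5 := hsep a ha a' ha' hne
        have h6 : ‖a - a'‖ ≤ ‖a - starRingEnd ℂ (β a)‖ + ‖a' - β a'‖ := by
          have : a - a' = (a - starRingEnd ℂ (β a)) - (a' - β a') := by rw [h2]; ring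
          rw [this]
          exact norm_sub_le _ _
        have h7 := hβ2 a ha
        have h8 := hβ2 a' ha'
        linarith
      rw [← h2, ← h4]
  rw [card_real hg.ne_zero, card_real hf.ne_zero, ← hS, ← hR, ← himg, Finset.filter_image,
    Finset.card_image_of_injOn (hinj.mono (by
      intro z hz
      exact Finset.mem_coe.2 (Finset.mem_filter.1 (Finset.mem_coe.1 hz)).1))]
  congr 1
  apply Finset.filter_congr
  intro a ha
  exact hreal a ha

end Pool.Agent.D0H34.SG
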